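import Mathlib
set_option autoImplicit false
namespace Pool.H13.P3
open Classical Finset

variable {V : Type*} [Fintype V]

theorem greedy (H : V → V → Prop) (hs : ∀ x y, H x y → H y x) (hi : ∀ x, ¬ H x x) (W : Finset V) :
    ∀ (L : V → Finset (Fin 5)),
    (∀ v ∈ W, (W.filter (fun y => H v y)).card ≤ (L v).card) →
    (∀ X ⊆ W, X.Nonempty → ∃ x ∈ X, (W.filter (fun y => H x y)).card < (L x).card ∨
      ∃ y ∈ W, y ∉ X ∧ H x y) →
    ∃ ψ : V → Fin 5, (∀ v ∈ W, ψ v ∈ L v) ∧ ∀ x ∈ W, ∀ y ∈ W, H x y → ψ x ≠ ψ y := by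
  induction W using Finset.strongInduction with
  | H W ih =>
  intro L hd hc
  rcases W.eq_empty_or_nonempty with rfl | hne
  · exact ⟨fun _ => 0, by simp, by simp⟩
  obtain ⟨w, hw, hsl⟩ := hc W (Finset.Subset.refl _) hne
  have hsl : (W.filter (fun y => H w y)).card < (L w).card := by
    rcases hsl with h | ⟨y, h1, h2, _⟩
    · exact h
    · exact absurd h1 h2
  have hmono : ∀ v, ((W.erase w).filter (fun y => H v y)).card ≤ (W.filter (fun y => H v y)).card := by
    intro v
    exact card_le_card (filter_subset_filter _ (erase_subset _ _))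
  obtain ⟨ψ, h1, h2⟩ := ih (W.erase w) (erase_ssubset hw) L
    (fun v hv => (hmono v).trans (hd v (mem_of_mem_erase hv)))
    (by
      intro X hX hXne
      obtain ⟨x, hx, h⟩ := hc X (hX.trans (erase_subset _ _)) hXne
      refine ⟨x, hx, ?_⟩
      rcases h with h | ⟨y, hy1, hy2, hy3⟩
      · exact Or.inl ((hmono x).trans_lt h)
      · by_cases hyw : y = w
        · left
          subst hyw
          have : ((W.erase y).filter (fun z => H x z)).card < (W.filter (fun z => H x z)).card := by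
            apply card_lt_card
            refine ⟨filter_subset_filter _ (erase_subset _ _), fun hsub => ?_⟩
            have := hsub (mem_filter.2 ⟨hy1, hy3⟩)
            simp at this
          exact this.trans_le (hd x (mem_of_mem_erase (hX hx)))
        · exact Or.inr ⟨y, mem_erase.2 ⟨hyw, hy1⟩, hy2, hy3⟩)
  have : ∃ c ∈ L w, c ∉ ((W.erase w).filter (fun y => H w y)).image ψ := by
    by_contra hcon
    push Not at hcon
    have h3 : (L w).card ≤ (((W.erase w).filter (fun y => H w y)).image ψ).card :=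
      card_le_card (fun c hc => hcon c hc)
    have h4 := card_image_le (s := (W.erase w).filter (fun y => H w y)) (f := ψ)
    have h5 := hmono w
    omega
  obtain ⟨c, hcL, hcn⟩ := this
  refine ⟨fun v => if v = w then c else ψ v, ?_, ?_⟩
  · intro v hv
    by_cases hvw : v = w
    · simp [hvw, hcL]
    · simpa [hvw] using h1 v (mem_erase.2 ⟨hvw, hv⟩)
  · intro x hx y hy hxy
    by_cases hxw : x = w
    · by_cases hyw : y = w
      · subst hxw; subst hyw; exact absurd hxy (hi _)
      · simp only [hxw, hyw, if_true, if_false]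
        intro hcc
        apply hcn
        rw [hcc]
        exact mem_image_of_mem _ (mem_filter.2 ⟨mem_erase.2 ⟨hyw, hy⟩, hxw ▸ hxy⟩)
    · by_cases hyw : y = w
      · simp only [hxw, hyw, if_true, if_false]
        intro hcc
        apply hcn
        rw [← hcc]
        exact mem_image_of_mem _ (mem_filter.2 ⟨mem_erase.2 ⟨hxw, hx⟩, hyw ▸ hs _ _ hxy⟩)
      · simp only [hxw, hyw, if_false]
        exact h2 x (mem_erase.2 ⟨hxw, hx⟩) y (mem_erase.2 ⟨hyw, hy⟩) hxy

theorem twocol (a b : Equiv.Perm V) (ha : ∀ v, a (a v) = v) (hb : ∀ v, b (b v) = v) (W : Finset V)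
    (haW : ∀ v ∈ W, a v ∈ W ∧ a v ≠ v) (hbW : ∀ v ∈ W, b v ∈ W ∧ b v ≠ v)
    (hmin : ∀ X ⊆ W, X.Nonempty → (∀ x ∈ X, a x ∈ X ∧ b x ∈ X) → X = W) :
    ∃ g : V → Prop, ∀ v ∈ W, (g (a v) ↔ ¬ g v) ∧ (g (b v) ↔ ¬ g v) := by
  rcases W.eq_empty_or_nonempty with rfl | ⟨u, hu⟩
  · exact ⟨fun _ => True, by simp⟩
  set s : Equiv.Perm V := b * a with hsdef
  have hsa : ∀ v, s (a v) = b v := by intro v; simp [hsdef, ha]
  have hsab : ∀ v, s (a (b v)) = v := by intro v; simp [hsdef, ha, hb]
  have hsW : ∀ m : ℤ, ∀ v ∈ W, (s ^ m) v ∈ W := by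
    intro m
    induction m using Int.induction_on with
    | zero => intro v hv; simpa using hv
    | succ n ih =>
      intro v hv
      rw [zpow_add_one]
      exact ih _ (hbW _ (haW v hv).1).1
    | pred n ih =>
      intro v hv
      rw [zpow_sub_one]
      refine ih _ ?_
      have : s⁻¹ v = a (b v) := by
        rw [Equiv.Perm.inv_eq_iff_eq]; exact (hsab v).symm
      rw [this]
      exact (haW _ (hbW v hv).1).1
  have hconj : ∀ m : ℤ, ∀ v, a ((s ^ m) v) = (s ^ (-m)) (a v) := by
    have h0 : a * s * a⁻¹ = s⁻¹ := by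
      ext v
      have hainv : a⁻¹ v = a v := by rw [Equiv.Perm.inv_eq_iff_eq, ha]
      have : s⁻¹ v = a (b v) := by
        rw [Equiv.Perm.inv_eq_iff_eq]; exact (hsab v).symm
      rw [this]
      simp only [Equiv.Perm.mul_apply, hainv, hsa]
    intro m v
    have h1 : a * s ^ m * a⁻¹ = s ^ (-m) := by
      rw [← conj_zpow, h0, inv_zpow, zpow_neg]
    have h2 := congrArg (fun p : Equiv.Perm V => p (a v)) h1
    simpa [Equiv.Perm.mul_apply] using h2
  refine ⟨fun v => s.SameCycle u v, ?_⟩
  have hgb : ∀ v, s.SameCycle u (b v) ↔ s.SameCycle u (a v) := by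
    intro v; rw [← hsa v, Equiv.Perm.sameCycle_apply_right]
  have hgab : ∀ v, s.SameCycle u (a (b v)) ↔ s.SameCycle u v := by
    intro v
    conv_rhs => rw [← hsab v]
    rw [Equiv.Perm.sameCycle_apply_right]
  have hkey : ∀ v ∈ W, s.SameCycle u v → ¬ s.SameCycle u (a v) := by
    intro v hv h1 h2
    have h3 : s.SameCycle v (a v) := h1.symm.trans h2
    obtain ⟨k, hk⟩ := h3
    rcases Int.even_or_odd' k with ⟨m, rfl | rfl⟩
    · have h4 := hconj m v
      rw [← hk, ← Equiv.Perm.mul_apply (s ^ (-m)) _ v, ← zpow_add] at h4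
      have : -m + 2 * m = m := by ring
      rw [this] at h4
      exact (haW _ (hsW m v hv)).2 h4
    · have h4 := hconj m v
      rw [← hk, ← Equiv.Perm.mul_apply (s ^ (-m)) _ v, ← zpow_add] at h4
      have : -m + (2 * m + 1) = 1 + m := by ring
      rw [this, zpow_add, zpow_one, Equiv.Perm.mul_apply] at h4
      have h5 : s ((s ^ m) v) = b (a ((s ^ m) v)) := rfl
      rw [h5] at h4
      exact (hbW _ (haW _ (hsW m v hv)).1).2 h4.symm
  have hall : W.filter (fun v => s.SameCycle u v ∨ s.SameCycle u (a v)) = W := by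
    apply hmin
    · exact filter_subset _ _
    · exact ⟨u, mem_filter.2 ⟨hu, Or.inl (Equiv.Perm.SameCycle.refl _ _)⟩⟩
    · intro x hx
      obtain ⟨hx1, hx2⟩ := mem_filter.1 hx
      refine ⟨mem_filter.2 ⟨(haW x hx1).1, ?_⟩, mem_filter.2 ⟨(hbW x hx1).1, ?_⟩⟩
      · rw [ha]; exact hx2.symm
      · rw [hgb, hgab]; exact hx2.symm
  intro v hv
  have h1 : s.SameCycle u v ∨ s.SameCycle u (a v) := by
    have : v ∈ W.filter (fun v => s.SameCycle u v ∨ s.SameCycle u (a v)) := by rw [hall]; exact hv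
    exact (mem_filter.1 this).2
  have h2 := hkey v hv
  have h3 := hgb v
  constructor
  · constructor
    · intro h h'; exact h2 h' h
    · intro h; exact h1.resolve_left h
  · constructor
    · intro h h'; exact h2 h' (h3.1 h)
    · intro h; exact h3.2 (h1.resolve_left h)

end Pool.H13.P3
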