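import Mathlib
set_option autoImplicit false
namespace Pool.H13.P3
open Classical Finset

variable {V : Type*} [Fintype V]

/-- No path with three edges. -/
def PF (X : V → V → Prop) : Prop :=
  ∀ a b c d, X a b → X b c → X c d → a ≠ c → b ≠ d → a ≠ d → False

noncomputable def nb (X : V → V → Prop) (v : V) : Finset V := univ.filter (fun y => X v y)
noncomputable def cl (X : V → V → Prop) (v : V) : Finset V := insert v (nb X v)

/-- `v` lies in a triangle. -/
def Tr (X : V → V → Prop) (v : V) : Prop := ∃ x y, X v x ∧ X v y ∧ X x y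

theorem mem_nb {X : V → V → Prop} {v y : V} : y ∈ nb X v ↔ X v y := by simp [nb]
theorem mem_cl {X : V → V → Prop} {v y : V} : y ∈ cl X v ↔ y = v ∨ X v y := by simp [cl, mem_nb]

section
variable (X : V → V → Prop) (hs : ∀ x y, X x y → X y x) (hi : ∀ x, ¬ X x x) (hp : PF X)
include hs hi hp

theorem tri_nb {v x y : V} (h1 : X v x) (h2 : X v y) (h3 : X x y) : nb X v = {x, y} := by
  ext w
  rw [mem_nb, mem_insert, mem_singleton]
  constructor
  · intro h
    by_contra hcon
    push Not at hcon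
    have hvy : v ≠ y := fun e => hi v (by rw [e] at h2 ⊢; exact h2)
    exact hp w v x y (hs _ _ h) h1 h3 hcon.1 hvy hcon.2
  · rintro (rfl | rfl) <;> assumption

theorem tri_card {v : V} (h : Tr X v) : (nb X v).card = 2 := by
  obtain ⟨x, y, h1, h2, h3⟩ := h
  rw [tri_nb X hs hi hp h1 h2 h3]
  have : x ≠ y := fun e => hi x (by rw [← e] at h3; exact h3)
  exact card_pair this

theorem tri_cl {v x y : V} (h1 : X v x) (h2 : X v y) (h3 : X x y) : cl X v = {v, x, y} := by
  rw [cl, tri_nb X hs hi hp h1 h2 h3]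

theorem cl_eq {v w : V} (h : Tr X v) (hw : w ∈ cl X v) : cl X w = cl X v ∧ Tr X w := by
  obtain ⟨x, y, h1, h2, h3⟩ := h
  rw [tri_cl X hs hi hp h1 h2 h3] at hw ⊢
  simp only [mem_insert, mem_singleton] at hw
  rcases hw with rfl | rfl | rfl
  · exact ⟨tri_cl X hs hi hp h1 h2 h3, _, _, h1, h2, h3⟩
  · refine ⟨?_, _, _, hs _ _ h1, h3, h2⟩
    rw [tri_cl X hs hi hp (hs _ _ h1) h3 h2]
    ext z; simp; tauto
  · refine ⟨?_, _, _, hs _ _ h2, hs _ _ h3, h1⟩
    rw [tri_cl X hs hi hp (hs _ _ h2) (hs _ _ h3) h1]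
    ext z; simp; tauto

theorem cl_card {v : V} (h : Tr X v) : (cl X v).card = 3 := by
  rw [cl, card_insert_of_notMem (by rw [mem_nb]; exact hi v), tri_card X hs hi hp h]

/-- small vertices -/
theorem star_leaf {z a w : V} (hz : ¬ Tr X z) (hz2 : 2 ≤ (nb X z).card) (ha : X z a) (hw : X a w) :
    w = z := by
  by_contra hwz
  obtain ⟨b, hb, hba⟩ := exists_mem_ne (show 1 < (nb X z).card by omega) a
  rw [mem_nb] at hb
  by_cases hwb : w = b
  · exact hz ⟨a, b, ha, hb, hwb ▸ hw⟩
  · exact hp b z a w (hs _ _ hb) ha hw hba (Ne.symm hwz) (Ne.symm hwb)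

/-- counting -/
theorem count (S : Finset V) (hS : ∀ x y, X x y → x ∈ S ∧ y ∈ S) :
    3 * (S.filter (fun v => ¬ Tr X v ∧ 2 ≤ (nb X v).card)).card + (S.filter (fun v => Tr X v)).card ≤ S.card ∧
    ∑ v ∈ S, (nb X v).card + 2 * (S.filter (fun v => ¬ Tr X v ∧ 2 ≤ (nb X v).card)).card ≤ 2 * S.card := by
  set Z := S.filter (fun v => ¬ Tr X v ∧ 2 ≤ (nb X v).card) with hZ
  set T := S.filter (fun v => Tr X v) with hT
  set R := S.filter (fun v => ¬ Tr X v ∧ ¬ 2 ≤ (nb X v).card) with hR
  have hsplit : T.card + Z.card + R.card = S.card := by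
    have h1 := card_filter_add_card_filter_not (s := S) (fun v => Tr X v)
    have h2 := card_filter_add_card_filter_not (s := S.filter (fun v => ¬ Tr X v)) (fun v => 2 ≤ (nb X v).card)
    rw [filter_filter, filter_filter] at h2
    have h3 : T.card + (S.filter (fun v => ¬ Tr X v)).card = S.card := h1
    have h4 : Z.card + R.card = (S.filter (fun v => ¬ Tr X v)).card := h2
    omega
  have hsub : Z.biUnion (fun z => nb X z) ⊆ R := by
    intro a ha
    rw [mem_biUnion] at ha
    obtain ⟨z, hz, haz⟩ := ha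
    rw [hZ, mem_filter] at hz
    rw [mem_nb] at haz
    have hall : ∀ w, X a w → w = z := fun w hw => star_leaf X hs hi hp hz.2.1 hz.2.2 haz hw
    rw [hR, mem_filter]
    refine ⟨(hS _ _ haz).2, ?_, ?_⟩
    · rintro ⟨x, y, h1, h2, h3⟩
      rw [hall x h1, hall y h2] at h3
      exact hi _ h3
    · intro h
      obtain ⟨b, hb, hbz⟩ := exists_mem_ne (show 1 < (nb X a).card by omega) z
      rw [mem_nb] at hb
      exact hbz (hall b hb)
  have hdis : ((Z : Set V)).PairwiseDisjoint (fun z => nb X z) := by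
    intro z hz z' hz' hne
    rw [Function.onFun, disjoint_left]
    intro a ha ha'
    rw [mem_nb] at ha ha'
    rw [mem_coe, hZ, mem_filter] at hz
    exact hne (star_leaf X hs hi hp hz.2.1 hz.2.2 ha (hs _ _ ha')).symm
  have hsum : ∑ z ∈ Z, (nb X z).card ≤ R.card := by
    rw [← card_biUnion hdis]
    exact card_le_card hsub
  have hZ2 : 2 * Z.card ≤ ∑ z ∈ Z, (nb X z).card := by
    have := card_nsmul_le_sum Z (fun z => (nb X z).card) 2 (fun z hz => (mem_filter.1 hz).2.2)
    simpa [mul_comm] using this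
  refine ⟨by omega, ?_⟩
  have e1 : ∑ v ∈ S, (nb X v).card = ∑ v ∈ T, (nb X v).card + (∑ v ∈ Z, (nb X v).card + ∑ v ∈ R, (nb X v).card) := by
    rw [← sum_filter_add_sum_filter_not S (fun v => Tr X v)]
    congr 1
    rw [← sum_filter_add_sum_filter_not (S.filter (fun v => ¬ Tr X v)) (fun v => 2 ≤ (nb X v).card)]
    rw [filter_filter, filter_filter]
  have e2 : ∑ v ∈ T, (nb X v).card = 2 * T.card := by
    rw [sum_congr rfl (fun v hv => tri_card X hs hi hp (mem_filter.1 hv).2), sum_const, smul_eq_mul,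
      mul_comm]
  have e3 : ∑ v ∈ R, (nb X v).card ≤ R.card := by
    have := sum_le_card_nsmul R (fun v => (nb X v).card) 1 (fun v hv => by
      have := (mem_filter.1 hv).2.2
      omega)
    simpa using this
  omega

end

end Pool.H13.P3
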