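import Pool.Agent.H13.P3.B
set_option autoImplicit false
namespace Pool.H13.P3
open Classical Finset

variable {V : Type*} [Fintype V]

theorem pairing {γ : Type*} (W : Finset V) (f : V → γ) (h1 : ∀ u ∈ W, ∃ w ∈ W, w ≠ u ∧ f w = f u)
    (h2 : W.card ≤ 2 * (W.image f).card) :
    ∃ α : Equiv.Perm V, (∀ v, α (α v) = v) ∧ (∀ v ∈ W, α v ∈ W ∧ α v ≠ v ∧ f (α v) = f v) ∧
      (∀ v ∈ W, ∀ w ∈ W, w ≠ v → f w = f v → w = α v) := by
  have huniq : ∀ u ∈ W, ∀ w ∈ W, ∀ w' ∈ W, w ≠ u → w' ≠ u → f w = f u → f w' = f u → w = w' := by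
    intro u hu w hw w' hw' hwu hwu' hf hf'
    by_contra hne
    have hc := card_eq_sum_card_image f W
    have hlt : ∑ b ∈ W.image f, 2 < ∑ b ∈ W.image f, (W.filter (fun a => f a = b)).card := by
      apply sum_lt_sum
      · intro b hb
        obtain ⟨x, hx, rfl⟩ := mem_image.1 hb
        obtain ⟨y, hy, hyx, hfy⟩ := h1 x hx
        have : ({x, y} : Finset V) ⊆ W.filter (fun a => f a = f x) := by
          intro z hz
          simp only [mem_insert, mem_singleton] at hz
          rcases hz with rfl | rfl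
          · exact mem_filter.2 ⟨hx, rfl⟩
          · exact mem_filter.2 ⟨hy, hfy⟩
        have h3 := card_le_card this
        rw [card_pair (Ne.symm hyx)] at h3
        exact h3
      · refine ⟨f u, mem_image_of_mem _ hu, ?_⟩
        have : ({u, w, w'} : Finset V) ⊆ W.filter (fun a => f a = f u) := by
          intro z hz
          simp only [mem_insert, mem_singleton] at hz
          rcases hz with rfl | rfl | rfl
          · exact mem_filter.2 ⟨hu, rfl⟩
          · exact mem_filter.2 ⟨hw, hf⟩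
          · exact mem_filter.2 ⟨hw', hf'⟩
        have h3 := card_le_card this
        rw [card_insert_of_notMem, card_pair hne] at h3
        · exact h3
        · simp only [mem_insert, mem_singleton]
          rintro (h | h)
          · exact hwu h.symm
          · exact hwu' h.symm
    rw [sum_const, smul_eq_mul] at hlt
    omega
  choose! p hp1 hp2 hp3 using h1
  have hinv : Function.Involutive (fun v => if v ∈ W then p v else v) := by
    intro v
    by_cases hv : v ∈ W
    · simp only [hv, if_true, hp1 v hv]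
      exact huniq (p v) (hp1 v hv) _ (hp1 _ (hp1 v hv)) _ hv (hp2 _ (hp1 v hv)) (hp2 v hv).symm
        (hp3 _ (hp1 v hv)) (hp3 v hv).symm
    · simp [hv]
  refine ⟨Function.Involutive.toPerm _ hinv, hinv, ?_, ?_⟩
  · intro v hv
    have : (Function.Involutive.toPerm _ hinv) v = p v := by simp [Function.Involutive.coe_toPerm, hv]
    rw [this]
    exact ⟨hp1 v hv, hp2 v hv, hp3 v hv⟩
  · intro v hv w hw hwv hf
    have : (Function.Involutive.toPerm _ hinv) v = p v := by simp [Function.Involutive.coe_toPerm, hv]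
    rw [this]
    exact huniq v hv _ hw _ (hp1 v hv) hwv (hp2 v hv) hf (hp3 v hv)

theorem two_im {γ : Type*} (W : Finset V) (f : V → γ) (h1 : ∀ u ∈ W, ∃ w ∈ W, w ≠ u ∧ f w = f u) :
    2 * (W.image f).card ≤ W.card := by
  rw [card_eq_sum_card_image f W]
  have := card_nsmul_le_sum (W.image f) (fun b => (W.filter (fun a => f a = b)).card) 2 (by
    intro b hb
    obtain ⟨x, hx, rfl⟩ := mem_image.1 hb
    obtain ⟨y, hy, hyx, hfy⟩ := h1 x hx
    have : ({x, y} : Finset V) ⊆ W.filter (fun a => f a = f x) := by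
      intro z hz
      simp only [mem_insert, mem_singleton] at hz
      rcases hz with rfl | rfl
      · exact mem_filter.2 ⟨hx, rfl⟩
      · exact mem_filter.2 ⟨hy, hfy⟩
    have h3 := card_le_card this
    rw [card_pair (Ne.symm hyx)] at h3
    exact h3)
  rw [smul_eq_mul, mul_comm] at this
  exact this

theorem minW {γ : Type*} (L : Finset V) (f g : V → γ) (hLn : L.Nonempty)
    (hcard : (L.image f).card + (L.image g).card ≤ L.card) :
    ∃ W ⊆ L, W.Nonempty ∧ ∃ α β : Equiv.Perm V, (∀ v, α (α v) = v) ∧ (∀ v, β (β v) = v) ∧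
      (∀ v ∈ W, α v ∈ W ∧ α v ≠ v ∧ f (α v) = f v) ∧ (∀ v ∈ W, ∀ w ∈ W, w ≠ v → f w = f v → w = α v) ∧
      (∀ v ∈ W, β v ∈ W ∧ β v ≠ v ∧ g (β v) = g v) ∧ (∀ v ∈ W, ∀ w ∈ W, w ≠ v → g w = g v → w = β v) ∧
      (∀ X ⊆ W, X.Nonempty → (∀ x ∈ X, α x ∈ X ∧ β x ∈ X) → X = W) := by
  obtain ⟨W, hW, hWmin⟩ := exists_min_image
    (L.powerset.filter (fun W => W.Nonempty ∧ (W.image f).card + (W.image g).card ≤ W.card))
    (fun W => W.card) ⟨L, by simp [hLn, hcard]⟩
  rw [mem_filter, mem_powerset] at hW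
  obtain ⟨hWL, hWn, hWc⟩ := hW
  have hmin : ∀ X ⊆ W, X.Nonempty → (X.image f).card + (X.image g).card ≤ X.card → W.card ≤ X.card := by
    intro X hX hXn hXc
    exact hWmin X (by rw [mem_filter, mem_powerset]; exact ⟨hX.trans hWL, hXn, hXc⟩)
  have hf1 : 1 ≤ (W.image f).card := card_pos.2 (hWn.image f)
  have hg1 : 1 ≤ (W.image g).card := card_pos.2 (hWn.image g)
  have herase : ∀ u ∈ W, W.card ≤ ((W.erase u).image f).card + ((W.erase u).image g).card := by
    intro u hu
    by_contra hcon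
    have hc := card_erase_of_mem hu
    have hne : (W.erase u).Nonempty := by
      rw [← card_pos]; omega
    have := hmin (W.erase u) (erase_subset _ _) hne (by omega)
    omega
  have hmf : ∀ u, ((W.erase u).image f).card ≤ (W.image f).card := fun u =>
    card_le_card (image_subset_image (erase_subset _ _))
  have hmg : ∀ u, ((W.erase u).image g).card ≤ (W.image g).card := fun u =>
    card_le_card (image_subset_image (erase_subset _ _))
  have hfp : ∀ u ∈ W, ∃ w ∈ W, w ≠ u ∧ f w = f u := by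
    intro u hu
    have h1 := herase u hu
    have h2 := hmf u
    have h3 := hmg u
    have h4 : (W.erase u).image f = W.image f :=
      eq_of_subset_of_card_le (image_subset_image (erase_subset _ _)) (by omega)
    have h5 : f u ∈ (W.erase u).image f := by rw [h4]; exact mem_image_of_mem _ hu
    obtain ⟨w, hw, hwf⟩ := mem_image.1 h5
    exact ⟨w, mem_of_mem_erase hw, ne_of_mem_erase hw, hwf⟩
  have hgp : ∀ u ∈ W, ∃ w ∈ W, w ≠ u ∧ g w = g u := by
    intro u hu
    have h1 := herase u hu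
    have h2 := hmf u
    have h3 := hmg u
    have h4 : (W.erase u).image g = W.image g :=
      eq_of_subset_of_card_le (image_subset_image (erase_subset _ _)) (by omega)
    have h5 : g u ∈ (W.erase u).image g := by rw [h4]; exact mem_image_of_mem _ hu
    obtain ⟨w, hw, hwf⟩ := mem_image.1 h5
    exact ⟨w, mem_of_mem_erase hw, ne_of_mem_erase hw, hwf⟩
  have h2f := two_im W f hfp
  have h2g := two_im W g hgp
  have hge : W.card ≤ (W.image f).card + (W.image g).card := by
    obtain ⟨u, hu⟩ := hWn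
    have h1 := herase u hu
    have h2 := hmf u
    have h3 := hmg u
    omega
  obtain ⟨α, ha1, ha2, ha3⟩ := pairing W f hfp (by omega)
  obtain ⟨β, hb1, hb2, hb3⟩ := pairing W g hgp (by omega)
  refine ⟨W, hWL, hWn, α, β, ha1, hb1, ha2, ha3, hb2, hb3, ?_⟩
  intro X hX hXn hXc
  have k1 := two_im X f (fun u hu => ⟨α u, (hXc u hu).1, (ha2 u (hX hu)).2.1, (ha2 u (hX hu)).2.2⟩)
  have k2 := two_im X g (fun u hu => ⟨β u, (hXc u hu).2, (hb2 u (hX hu)).2.1, (hb2 u (hX hu)).2.2⟩)
  exact eq_of_subset_of_card_le hX (hmin X hX hXn (by omega))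

/-- an even-ness lemma -/
theorem even_inv (X : Finset V) (a : V → V) (h1 : ∀ x ∈ X, a x ∈ X) (h2 : ∀ x ∈ X, a x ≠ x)
    (h3 : ∀ x, a (a x) = x) : Even X.card := by
  have : (∑ x ∈ X, (1 : ZMod 2)) = 0 :=
    sum_involution (fun x _ => a x) (fun _ _ => by decide) (fun x hx _ => h2 x hx)
      (fun x hx => h1 x hx) (fun x _ => h3 x)
  simp only [sum_const, nsmul_eq_mul, mul_one] at this
  exact (ZMod.natCast_eq_zero_iff_even).1 this

/-- leaving a set -/
theorem leave (W : Finset V) (α β : Equiv.Perm V) (ha1 : ∀ v, α (α v) = v) (hb1 : ∀ v, β (β v) = v)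
    (ha : ∀ v ∈ W, α v ∈ W ∧ α v ≠ v) (hb : ∀ v ∈ W, β v ∈ W ∧ β v ≠ v)
    (hmin : ∀ X ⊆ W, X.Nonempty → (∀ x ∈ X, α x ∈ X ∧ β x ∈ X) → X = W)
    (u : V) (hu : u ∈ W) (X : Finset V) (hX : X ⊆ W.erase u) (hXn : X.Nonempty) (hw : α u ∉ X) :
    ∃ x ∈ X, ∃ y ∈ W.erase u, y ∉ X ∧ (y = α x ∨ y = β x) := by
  by_contra hcon
  push Not at hcon
  have hXW : X ⊆ W := hX.trans (erase_subset _ _)
  have huX : u ∉ X := fun h => (ne_of_mem_erase (hX h)) rfl
  have hαX : ∀ x ∈ X, α x ∈ X := by
    intro x hx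
    by_contra h
    have hne : α x ≠ u := by
      intro e
      apply hw
      rw [← e, ha1]; exact hx
    exact (hcon x hx (α x) (mem_erase.2 ⟨hne, (ha x (hXW hx)).1⟩) h).1 rfl
  have hβX : ∀ x ∈ X, β x ≠ u → β x ∈ X := by
    intro x hx hne
    by_contra h
    exact (hcon x hx (β x) (mem_erase.2 ⟨hne, (hb x (hXW hx)).1⟩) h).2 rfl
  have e1 : Even X.card := even_inv X α hαX (fun x hx => (ha x (hXW hx)).2) ha1
  by_cases hβu : β u ∈ X
  · have e2 : Even (X.erase (β u)).card := by
      apply even_inv _ β _ (fun x hx => (hb x (hXW (mem_of_mem_erase hx))).2) hb1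
      intro x hx
      have hxX := mem_of_mem_erase hx
      have hne : β x ≠ u := by
        intro e
        apply ne_of_mem_erase hx
        rw [← e, hb1]
      refine mem_erase.2 ⟨?_, hβX x hxX hne⟩
      intro e
      have := β.injective e
      exact huX (this ▸ hxX)
    rw [card_erase_of_mem hβu] at e2
    have hpos : 0 < X.card := card_pos.2 hXn
    obtain ⟨k, hk⟩ := e1
    obtain ⟨l, hl⟩ := e2
    omega
  · have := hmin X hXW hXn (fun x hx => ⟨hαX x hx, hβX x hx (by
      intro e; apply hβu; rw [← e, hb1]; exact hx)⟩)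
    exact huX (this ▸ hu)

end Pool.H13.P3
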