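import Pool.Agent.H13.P3.A
import Pool.Agent.H13.P3.C
set_option autoImplicit false
namespace Pool.H13.P3
open Classical Finset

variable {V : Type*} [Fintype V]

theorem third (X : V → V → Prop) (hs : ∀ x y, X x y → X y x) (hi : ∀ x, ¬ X x x) (hp : PF X)
    (W : Finset V) (a : V → V) {v : V} (hT : Tr X v)
    (ha : a v ∈ W ∧ a v ≠ v ∧ cl X (a v) = cl X v)
    (hu : ∀ w ∈ W, w ≠ v → cl X w = cl X v → w = a v) :
    X v (a v) ∧ (∀ w ∈ W, X v w → w = a v) ∧
      ∃ x, X v x ∧ x ∉ W ∧ X (a v) x ∧ (∀ z, X v z → z = a v ∨ z = x) ∧ (∀ z, X x z → z = v ∨ z = a v) := by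
  obtain ⟨ha1, ha2, ha3⟩ := ha
  have h1 : X v (a v) := by
    have : a v ∈ cl X v := by rw [← ha3, mem_cl]; exact Or.inl rfl
    rw [mem_cl] at this
    exact this.resolve_left ha2
  have h2 : ∀ w ∈ W, X v w → w = a v := by
    intro w hw hvw
    have hne : w ≠ v := by rintro rfl; exact hi _ hvw
    exact hu w hw hne (cl_eq X hs hi hp hT (mem_cl.2 (Or.inr hvw))).1
  refine ⟨h1, h2, ?_⟩
  have hc := tri_card X hs hi hp hT
  obtain ⟨x, hx, hxa⟩ := exists_mem_ne (show 1 < (nb X v).card by omega) (a v)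
  rw [mem_nb] at hx
  have hnb : nb X v = {a v, x} := by
    symm
    apply eq_of_subset_of_card_le
    · intro z hz
      simp only [mem_insert, mem_singleton] at hz
      rcases hz with rfl | rfl
      · exact mem_nb.2 h1
      · exact mem_nb.2 hx
    · rw [card_pair (Ne.symm hxa), hc]
  have hz : ∀ z, X v z → z = a v ∨ z = x := by
    intro z hz
    have : z ∈ nb X v := mem_nb.2 hz
    rw [hnb] at this
    simpa using this
  have hxW : x ∉ W := fun h => hxa (h2 x h hx)
  have hxc := cl_eq X hs hi hp hT (mem_cl.2 (Or.inr hx))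
  refine ⟨x, hx, hxW, ?_, hz, ?_⟩
  · have : x ∈ cl X (a v) := by rw [ha3, mem_cl]; exact Or.inr hx
    rw [mem_cl] at this
    exact this.resolve_left hxa
  · intro z hxz
    have : z ∈ cl X v := by rw [← hxc.1, mem_cl]; exact Or.inr hxz
    rw [mem_cl] at this
    rcases this with h | h
    · exact Or.inl h
    · rcases hz z h with h' | h'
      · exact Or.inr h'
      · subst h'; exact absurd hxz (hi _)

theorem diff (H : V → V → Prop) (hs : ∀ x y, H x y → H y x) (hi : ∀ x, ¬ H x x) (W : Finset V)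
    (L : V → Finset (Fin 5))
    (hd : ∀ v ∈ W, (W.filter (fun y => H v y)).card ≤ (L v).card)
    (u w : V) (hu : u ∈ W) (huw : H u w) (hw : w ∈ W) (p : Fin 5) (hpu : p ∈ L u) (hpw : p ∉ L w)
    (hc : ∀ X ⊆ W.erase u, X.Nonempty → w ∉ X → ∃ x ∈ X, ∃ y ∈ W.erase u, y ∉ X ∧ H x y) :
    ∃ ψ : V → Fin 5, (∀ v ∈ W, ψ v ∈ L v) ∧ ∀ x ∈ W, ∀ y ∈ W, H x y → ψ x ≠ ψ y := by
  have hlt : ∀ v, H u v → ((W.erase u).filter (fun y => H v y)).card < (W.filter (fun y => H v y)).card := by
    intro v huv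
    apply card_lt_card
    refine ⟨filter_subset_filter _ (erase_subset _ _), fun hsub => ?_⟩
    have := hsub (mem_filter.2 ⟨hu, hs _ _ huv⟩)
    simp at this
  have hle : ∀ v, ((W.erase u).filter (fun y => H v y)).card ≤ (W.filter (fun y => H v y)).card := by
    intro v
    exact card_le_card (filter_subset_filter _ (erase_subset _ _))
  obtain ⟨ψ, h1, h2⟩ := greedy H hs hi (W.erase u) (fun v => if H u v then (L v).erase p else L v)
    (by
      intro v hv
      by_cases huv : H u v
      · simp only [huv, if_true]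
        have h1 := hlt v huv
        have h2 := hd v (mem_of_mem_erase hv)
        have h3 := pred_card_le_card_erase (s := L v) (a := p)
        omega
      · simp only [huv, if_false]
        exact (hle v).trans (hd v (mem_of_mem_erase hv)))
    (by
      intro X hX hXn
      by_cases hwX : w ∈ X
      · refine ⟨w, hwX, Or.inl ?_⟩
        simp only [huw, if_true]
        rw [erase_eq_of_notMem hpw]
        exact (hlt w huw).trans_le (hd w hw)
      · obtain ⟨x, hx, y, hy1, hy2, hy3⟩ := hc X hX hXn hwX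
        exact ⟨x, hx, Or.inr ⟨y, hy1, hy2, hy3⟩⟩)
  refine ⟨fun v => if v = u then p else ψ v, ?_, ?_⟩
  · intro v hv
    by_cases hvu : v = u
    · simp [hvu, hpu]
    · have := h1 v (mem_erase.2 ⟨hvu, hv⟩)
      simp only [hvu, if_false]
      by_cases huv : H u v
      · simp only [huv, if_true] at this
        exact mem_of_mem_erase this
      · simpa only [huv, if_false] using this
  · have key : ∀ y ∈ W, y ≠ u → H u y → ψ y ≠ p := by
      intro y hy hyu huy
      have := h1 y (mem_erase.2 ⟨hyu, hy⟩)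
      simp only [huy, if_true] at this
      exact ne_of_mem_erase this
    intro x hx y hy hxy
    by_cases hxu : x = u
    · by_cases hyu : y = u
      · subst hxu; subst hyu; exact absurd hxy (hi _)
      · simp only [hxu, hyu, if_true, if_false]
        exact (key y hy hyu (hxu ▸ hxy)).symm
    · by_cases hyu : y = u
      · simp only [hxu, hyu, if_true, if_false]
        exact key x hx hxu (hs _ _ (hyu ▸ hxy))
      · simp only [hxu, hyu, if_false]
        exact h2 x (mem_erase.2 ⟨hxu, hx⟩) y (mem_erase.2 ⟨hyu, hy⟩) hxy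

structure Cls (S : Finset V) (X : V → V → Prop) : Prop where
  s : ∀ x y, X x y → X y x
  i : ∀ x, ¬ X x x
  p : PF X
  u : ∀ x y, X x y → x ∈ S ∧ y ∈ S

def res (X : V → V → Prop) (W : Finset V) : V → V → Prop := fun x y => X x y ∧ x ∉ W ∧ y ∉ W

theorem Cls.res {S : Finset V} {X : V → V → Prop} (h : Cls S X) (W : Finset V) :
    Cls (S \ W) (res X W) where
  s := fun x y hxy => ⟨h.s _ _ hxy.1, hxy.2.2, hxy.2.1⟩
  i := fun x hx => h.i x hx.1
  p := fun a b c d h1 h2 h3 => h.p a b c d h1.1 h2.1 h3.1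
  u := fun x y hxy => ⟨mem_sdiff.2 ⟨(h.u _ _ hxy.1).1, hxy.2.1⟩, mem_sdiff.2 ⟨(h.u _ _ hxy.1).2, hxy.2.2⟩⟩

theorem tri_images (X : V → V → Prop) {S : Finset V} (h : Cls S X) (L : Finset V) (hL : L ⊆ S)
    (hLT : ∀ v ∈ L, Tr X v) :
    3 * (L.image (cl X)).card ≤ (S.filter (fun v => Tr X v)).card := by
  have h1 : (L.image (cl X)).card ≤ ((S.filter (fun v => Tr X v)).image (cl X)).card :=
    card_le_card (image_subset_image (fun v hv => mem_filter.2 ⟨hL hv, hLT v hv⟩))
  have h2 := mul_card_image_le_card (f := cl X) (S.filter (fun v => Tr X v)) 3 (by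
    intro a ha
    obtain ⟨v, hv, rfl⟩ := mem_image.1 ha
    obtain ⟨hvS, hvT⟩ := mem_filter.1 hv
    rw [← cl_card X h.s h.i h.p hvT]
    apply card_le_card
    intro w hw
    obtain ⟨k1, k2⟩ := cl_eq X h.s h.i h.p hvT hw
    have hwS : w ∈ S := by
      rcases mem_cl.1 hw with rfl | hh
      · exact hvS
      · exact (h.u _ _ hh).2
    exact mem_filter.2 ⟨mem_filter.2 ⟨hwS, k2⟩, k1⟩)
  omega

end Pool.H13.P3
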