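import Pool.Agent.H13.P3.D
set_option autoImplicit false
namespace Pool.H13.P3
open Classical Finset

variable {V : Type*} [Fintype V]

theorem tr_res {X : V → V → Prop} (W : Finset V) (h : ∀ v, ¬ Tr X v) : ∀ v, ¬ Tr (res X W) v := by
  rintro v ⟨x, y, h1, h2, h3⟩
  exact h v ⟨x, y, h1.1, h2.1, h3.1⟩

theorem main_aux : ∀ (n : ℕ) (S : Finset V) (A B F : V → V → Prop), S.card = n →
    Cls S A → Cls S B → Cls S F → (∀ v, ¬ Tr F v) →
    ∃ φ : V → Fin 5, ∀ x y, (A x y ∨ B x y ∨ F x y) → φ x ≠ φ y := by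
  intro n
  induction n using Nat.strong_induction_on with
  | _ n ih =>
  intro S A B F hn cA cB cF hTF
  set H : V → V → Prop := fun x y => A x y ∨ B x y ∨ F x y with hH
  have Hs : ∀ x y, H x y → H y x := by
    rintro x y (h|h|h)
    exacts [Or.inl (cA.s _ _ h), Or.inr (Or.inl (cB.s _ _ h)), Or.inr (Or.inr (cF.s _ _ h))]
  have Hi : ∀ x, ¬ H x x := by
    rintro x (h|h|h)
    exacts [cA.i _ h, cB.i _ h, cF.i _ h]
  have Hu : ∀ x y, H x y → x ∈ S ∧ y ∈ S := by
    rintro x y (h|h|h)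
    exacts [cA.u _ _ h, cB.u _ _ h, cF.u _ _ h]
  rcases S.eq_empty_or_nonempty with hS | hSn
  · exact ⟨fun _ => 0, fun x y hxy => absurd (Hu x y hxy).1 (by simp [hS])⟩
  by_cases hlow : ∃ v ∈ S, (nb H v).card ≤ 4
  · obtain ⟨v, hv, hd⟩ := hlow
    obtain ⟨φ, hφ⟩ := ih (S \ {v}).card
      (by rw [← hn]; exact card_lt_card (sdiff_ssubset (by simpa using hv) (by simp)))
      (S \ {v}) (res A {v}) (res B {v}) (res F {v}) rfl (cA.res _) (cB.res _) (cF.res _) (tr_res _ hTF)
    have hc : ∃ c, c ∉ (nb H v).image φ := by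
      by_contra hcon
      push Not at hcon
      have h1 : (univ : Finset (Fin 5)) ⊆ (nb H v).image φ := fun c _ => hcon c
      have h2 := card_le_card h1
      have h3 := card_image_le (s := nb H v) (f := φ)
      simp at h2
      omega
    obtain ⟨c, hc⟩ := hc
    have hc' : ∀ y, H v y → φ y ≠ c := by
      intro y hy e
      exact hc (e ▸ mem_image_of_mem _ (mem_nb.2 hy))
    refine ⟨fun x => if x = v then c else φ x, ?_⟩
    intro x y hxy
    have hxy : H x y := hxy
    by_cases hx : x = v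
    · by_cases hy : y = v
      · subst hx; subst hy; exact absurd hxy (Hi _)
      · simp only [hx, hy, if_true, if_false]
        exact (hc' y (hx ▸ hxy)).symm
    · by_cases hy : y = v
      · simp only [hx, hy, if_true, if_false]
        exact hc' x (Hs _ _ (hy ▸ hxy))
      · simp only [hx, hy, if_false]
        apply hφ
        have hx' : x ∉ ({v} : Finset V) := by simpa using hx
        have hy' : y ∉ ({v} : Finset V) := by simpa using hy
        rcases hxy with h | h | h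
        exacts [Or.inl ⟨h, hx', hy'⟩, Or.inr (Or.inl ⟨h, hx', hy'⟩), Or.inr (Or.inr ⟨h, hx', hy'⟩)]
  have hdeg : ∀ v ∈ S, 5 ≤ (nb H v).card := by
    intro v hv
    by_contra h
    exact hlow ⟨v, hv, by omega⟩
  have hnbH : ∀ v, (nb H v).card ≤ (nb A v).card + (nb B v).card + (nb F v).card := by
    intro v
    have h1 : nb H v ⊆ (nb A v ∪ nb B v) ∪ nb F v := by
      intro z hz
      rw [mem_nb] at hz
      simp only [mem_union, mem_nb]
      rcases hz with h | h | h
      exacts [Or.inl (Or.inl h), Or.inl (Or.inr h), Or.inr h]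
    have h2 := card_le_card h1
    have h3 := card_union_le (nb A v ∪ nb B v) (nb F v)
    have h4 := card_union_le (nb A v) (nb B v)
    omega
  set ZA := S.filter (fun v => ¬ Tr A v ∧ 2 ≤ (nb A v).card) with hZA
  set ZB := S.filter (fun v => ¬ Tr B v ∧ 2 ≤ (nb B v).card) with hZB
  set ZF := S.filter (fun v => ¬ Tr F v ∧ 2 ≤ (nb F v).card) with hZF
  set L := S.filter (fun v => Tr A v ∧ Tr B v ∧ ¬ 2 ≤ (nb F v).card) with hL
  obtain ⟨a1, a2⟩ := count A cA.s cA.i cA.p S cA.u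
  obtain ⟨b1, b2⟩ := count B cB.s cB.i cB.p S cB.u
  obtain ⟨f1, f2⟩ := count F cF.s cF.i cF.p S cF.u
  rw [← hZA] at a1 a2
  rw [← hZB] at b1 b2
  rw [← hZF] at f1 f2
  have hA2 : ∀ v ∈ S, v ∉ ZA → (Tr A v ∧ (nb A v).card = 2) ∨ (nb A v).card ≤ 1 := by
    intro v hv h
    by_cases hT : Tr A v
    · exact Or.inl ⟨hT, tri_card A cA.s cA.i cA.p hT⟩
    · right
      by_contra hc
      exact h (mem_filter.2 ⟨hv, hT, by omega⟩)
  have hB2 : ∀ v ∈ S, v ∉ ZB → (Tr B v ∧ (nb B v).card = 2) ∨ (nb B v).card ≤ 1 := by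
    intro v hv h
    by_cases hT : Tr B v
    · exact Or.inl ⟨hT, tri_card B cB.s cB.i cB.p hT⟩
    · right
      by_contra hc
      exact h (mem_filter.2 ⟨hv, hT, by omega⟩)
  have hF2 : ∀ v ∈ S, v ∉ ZF → (nb F v).card ≤ 1 := by
    intro v hv h
    by_contra hc
    exact h (mem_filter.2 ⟨hv, hTF v, by omega⟩)
  have hcover : S ⊆ L ∪ (ZA ∪ (ZB ∪ ZF)) := by
    intro v hv
    by_contra h
    simp only [mem_union, not_or] at h
    obtain ⟨h0, hA, hB, hF⟩ := h
    have e1 := hA2 v hv hA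
    have e2 := hB2 v hv hB
    have e3 := hF2 v hv hF
    have e4 := hdeg v hv
    have e5 := hnbH v
    rcases e1 with ⟨e1, e1'⟩ | e1
    · rcases e2 with ⟨e2, e2'⟩ | e2
      · exact h0 (mem_filter.2 ⟨hv, e1, e2, by omega⟩)
      · omega
    · rcases e2 with ⟨e2, e2'⟩ | e2 <;> omega
  have hcard : S.card ≤ L.card + (ZA.card + (ZB.card + ZF.card)) := by
    have h1 := card_le_card hcover
    have h2 := card_union_le L (ZA ∪ (ZB ∪ ZF))
    have h3 := card_union_le ZA (ZB ∪ ZF)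
    have h4 := card_union_le ZB ZF
    omega
  have hsum1 : 5 * S.card ≤ ∑ v ∈ S, (nb H v).card := by
    have := card_nsmul_le_sum S (fun v => (nb H v).card) 5 hdeg
    simpa [mul_comm] using this
  have hsum2 : ∑ v ∈ S, (nb H v).card ≤ ∑ v ∈ S, (nb A v).card + ∑ v ∈ S, (nb B v).card + ∑ v ∈ S, (nb F v).card := by
    rw [← sum_add_distrib, ← sum_add_distrib]
    exact sum_le_sum (fun v _ => hnbH v)
  have hSpos : 0 < S.card := card_pos.2 hSn
  have hLn : L.Nonempty := by
    rw [← card_pos]; omega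
  have hLS : L ⊆ S := filter_subset _ _
  have tA := tri_images A cA L hLS (fun v hv => (mem_filter.1 hv).2.1)
  have tB := tri_images B cB L hLS (fun v hv => (mem_filter.1 hv).2.2.1)
  have hLcard : (L.image (cl A)).card + (L.image (cl B)).card ≤ L.card := by omega
  obtain ⟨W, hWL, hWn, α, β, ha1, hb1, hα, hα', hβ, hβ', hmin⟩ := minW L (cl A) (cl B) hLn
    (le_trans (le_of_eq (congrArg₂ (· + ·) (congrArg Finset.card (by ext z; simp only [mem_image]))
      (congrArg Finset.card (by ext z; simp only [mem_image])))) hLcard)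
  have hWS : W ⊆ S := hWL.trans hLS
  have hTA : ∀ v ∈ W, Tr A v := fun v hv => (mem_filter.1 (hWL hv)).2.1
  have hTB : ∀ v ∈ W, Tr B v := fun v hv => (mem_filter.1 (hWL hv)).2.2.1
  have hF1 : ∀ v ∈ W, (nb F v).card ≤ 1 := fun v hv => by
    have := (mem_filter.1 (hWL hv)).2.2.2
    omega
  have dA := fun v (hv : v ∈ W) => third A cA.s cA.i cA.p W α (hTA v hv) (hα v hv) (hα' v hv)
  have dB := fun v (hv : v ∈ W) => third B cB.s cB.i cB.p W β (hTB v hv) (hβ v hv) (hβ' v hv)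
  have eA : ∀ v ∈ W, ∃ x, A v x ∧ x ∉ W ∧ A (α v) x ∧ (∀ z, A v z → z = α v ∨ z = x) ∧
    (∀ z, A x z → z = v ∨ z = α v) := fun v hv => (dA v hv).2.2
  have eB : ∀ v ∈ W, ∃ x, B v x ∧ x ∉ W ∧ B (β v) x ∧ (∀ z, B v z → z = β v ∨ z = x) ∧
    (∀ z, B x z → z = v ∨ z = β v) := fun v hv => (dB v hv).2.2
  choose! xa xa1 xa2 xa3 xa4 xa5 using eA
  choose! yb yb1 yb2 yb3 yb4 yb5 using eB
  have hle5 : ∀ v ∈ W, (nb H v).card ≤ 5 := by
    intro v hv
    have h1 := hnbH v
    have h2 := tri_card A cA.s cA.i cA.p (hTA v hv)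
    have h3 := tri_card B cB.s cB.i cB.p (hTB v hv)
    have h4 := hF1 v hv
    omega
  have hno : ∀ v ∈ W, ∀ p q r : V, (∀ z, H v z → z = p ∨ z = q ∨ z = r ∨ F v z) → False := by
    intro v hv p q r h
    have h1 : nb H v ⊆ insert p (insert q (insert r (nb F v))) := by
      intro z hz
      rw [mem_nb] at hz
      simp only [mem_insert, mem_nb]
      exact h z hz
    have h2 := card_le_card h1
    have h3 := card_insert_le p (insert q (insert r (nb F v)))
    have h4 := card_insert_le q (insert r (nb F v))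
    have h5 := card_insert_le r (nb F v)
    have h6 := hF1 v hv
    have h7 := hdeg v (hWS hv)
    omega
  have hne1 : ∀ v ∈ W, α v ≠ β v := by
    intro v hv e
    apply hno v hv (α v) (xa v) (yb v)
    intro z hz
    rcases hz with h | h | h
    · rcases xa4 v hv z h with h | h
      exacts [Or.inl h, Or.inr (Or.inl h)]
    · rcases yb4 v hv z h with h | h
      · exact Or.inl (h.trans e.symm)
      · exact Or.inr (Or.inr (Or.inl h))
    · exact Or.inr (Or.inr (Or.inr h))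
  have hne2 : ∀ v ∈ W, xa v ≠ yb v := by
    intro v hv e
    apply hno v hv (α v) (xa v) (β v)
    intro z hz
    rcases hz with h | h | h
    · rcases xa4 v hv z h with h | h
      exacts [Or.inl h, Or.inr (Or.inl h)]
    · rcases yb4 v hv z h with h | h
      · exact Or.inr (Or.inr (Or.inl h))
      · exact Or.inr (Or.inl (h.trans e.symm))
    · exact Or.inr (Or.inr (Or.inr h))
  obtain ⟨u0, hu0⟩ := id hWn
  have hw0 : β u0 ∈ W := (hβ u0 hu0).1
  have hx01 : xa u0 ≠ xa (β u0) := by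
    intro e
    have h1 : A (xa u0) (β u0) := by rw [e]; exact cA.s _ _ (xa1 _ hw0)
    rcases xa5 u0 hu0 _ h1 with h | h
    · exact (hβ u0 hu0).2.1 h
    · exact hne1 u0 hu0 h.symm
  obtain ⟨x0, hx0e⟩ : ∃ x0, x0 = xa u0 := ⟨_, rfl⟩
  obtain ⟨x1, hx1e⟩ : ∃ x1, x1 = xa (β u0) := ⟨_, rfl⟩
  rw [← hx0e, ← hx1e] at hx01
  have hx0 : ∀ z, A x0 z → z ∈ W := by
    intro z hz
    rw [hx0e] at hz
    rcases xa5 u0 hu0 z hz with h | h
    · rw [h]; exact hu0
    · rw [h]; exact (hα u0 hu0).1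
  have hx1 : ∀ z, A x1 z → z ∈ W := by
    intro z hz
    rw [hx1e] at hz
    rcases xa5 _ hw0 z hz with h | h
    · rw [h]; exact hw0
    · rw [h]; exact (hα _ hw0).1
  have hx0W : x0 ∉ W := hx0e ▸ xa2 u0 hu0
  have hx1W : x1 ∉ W := hx1e ▸ xa2 _ hw0
  have hx0S : x0 ∈ S := hx0e ▸ (cA.u _ _ (xa1 u0 hu0)).2
  have hx1S : x1 ∈ S := hx1e ▸ (cA.u _ _ (xa1 _ hw0)).2
  obtain ⟨A', hA'⟩ : ∃ A' : V → V → Prop, ∀ x y, A' x y ↔ (A x y ∧ x ∉ W ∧ y ∉ W) ∨ (x = x0 ∧ y = x1) ∨ (x = x1 ∧ y = x0) :=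
    ⟨_, fun _ _ => Iff.rfl⟩
  have k0 : ∀ z, A' x0 z → z = x1 := by
    intro z hz
    rcases (hA' _ _).1 hz with h | h | h
    · exact absurd (hx0 z h.1) h.2.2
    · exact h.2
    · exact absurd h.1 hx01
  have k1 : ∀ z, A' x1 z → z = x0 := by
    intro z hz
    rcases (hA' _ _).1 hz with h | h | h
    · exact absurd (hx1 z h.1) h.2.2
    · exact absurd h.1.symm hx01
    · exact h.2
  have cA' : Cls (S \ W) A' := by
    refine ⟨?_, ?_, ?_, ?_⟩
    · intro x y h
      rw [hA'] at h ⊢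
      rcases h with h | h | h
      exacts [Or.inl ⟨cA.s _ _ h.1, h.2.2, h.2.1⟩, Or.inr (Or.inr ⟨h.2, h.1⟩), Or.inr (Or.inl ⟨h.2, h.1⟩)]
    · intro x h
      rw [hA'] at h
      rcases h with h | h | h
      exacts [cA.i _ h.1, hx01 (h.1.symm.trans h.2), hx01 (h.2.symm.trans h.1)]
    · intro a b c d hab hbc hcd hac hbd had
      rcases (hA' _ _).1 hab with h1 | h1 | h1
      · rcases (hA' _ _).1 hbc with h2 | h2 | h2
        · rcases (hA' _ _).1 hcd with h3 | h3 | h3
          · exact cA.p a b c d h1.1 h2.1 h3.1 hac hbd had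
          · rw [h3.1] at h2; exact h2.2.1 (hx0 b (cA.s _ _ h2.1))
          · rw [h3.1] at h2; exact h2.2.1 (hx1 b (cA.s _ _ h2.1))
        · rw [h2.1] at h1; exact h1.2.1 (hx0 a (cA.s _ _ h1.1))
        · rw [h2.1] at h1; exact h1.2.1 (hx1 a (cA.s _ _ h1.1))
      · rw [h1.2] at hbc; exact hac (h1.1.trans (k1 c hbc).symm)
      · rw [h1.2] at hbc; exact hac (h1.1.trans (k0 c hbc).symm)
    · intro x y h
      rw [hA'] at h
      rw [mem_sdiff, mem_sdiff]
      rcases h with h | h | h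
      · exact ⟨⟨(cA.u _ _ h.1).1, h.2.1⟩, ⟨(cA.u _ _ h.1).2, h.2.2⟩⟩
      · rw [h.1, h.2]; exact ⟨⟨hx0S, hx0W⟩, ⟨hx1S, hx1W⟩⟩
      · rw [h.1, h.2]; exact ⟨⟨hx1S, hx1W⟩, ⟨hx0S, hx0W⟩⟩
  obtain ⟨φ, hφ⟩ := ih (S \ W).card (by rw [← hn]; exact card_lt_card (sdiff_ssubset hWS hWn))
    (S \ W) A' (res B W) (res F W) rfl cA' (cB.res _) (cF.res _) (tr_res _ hTF)
  have hφ1 : ∀ x y, x ∉ W → y ∉ W → H x y → φ x ≠ φ y := by
    intro x y hx hy h
    apply hφ
    rcases h with h | h | h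
    exacts [Or.inl ((hA' _ _).2 (Or.inl ⟨h, hx, hy⟩)), Or.inr (Or.inl ⟨h, hx, hy⟩), Or.inr (Or.inr ⟨h, hx, hy⟩)]
  have hφ01 : φ x0 ≠ φ x1 := hφ x0 x1 (Or.inl ((hA' _ _).2 (Or.inr (Or.inl ⟨rfl, rfl⟩))))
  obtain ⟨Lst, hLdef⟩ : ∃ Lst : V → Finset (Fin 5), ∀ v, Lst v = (((nb H v) \ W).image φ)ᶜ := ⟨_, fun _ => rfl⟩
  have hLst : ∀ v c, c ∈ Lst v ↔ ∀ y, H v y → y ∉ W → φ y ≠ c := by
    intro v c
    rw [hLdef, mem_compl, mem_image]
    constructor
    · intro h y h1 h2 h3
      exact h ⟨y, mem_sdiff.2 ⟨mem_nb.2 h1, h2⟩, h3⟩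
    · rintro h ⟨y, h1, h2⟩
      rw [mem_sdiff, mem_nb] at h1
      exact h y h1.1 h1.2 h2
  have hsplit : ∀ v, (W.filter (fun y => H v y)).card + ((nb H v) \ W).card = (nb H v).card := by
    intro v
    have : W.filter (fun y => H v y) = nb H v ∩ W := by
      ext z; simp [nb, and_comm]
    rw [this, card_inter_add_card_sdiff]
  have hLc : ∀ v, (Lst v).card + (((nb H v) \ W).image φ).card = 5 := by
    intro v
    have h1 := card_compl_add_card (((nb H v) \ W).image φ)
    rw [← hLdef] at h1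
    simpa using h1
  have hd : ∀ v ∈ W, (W.filter (fun y => H v y)).card ≤ (Lst v).card := by
    intro v hv
    have h1 := hLc v
    have h2 := hsplit v
    have h3 := hle5 v hv
    have h4 := card_image_le (s := (nb H v) \ W) (f := φ)
    omega
  have finish : (∃ ψ : V → Fin 5, (∀ v ∈ W, ψ v ∈ Lst v) ∧ ∀ x ∈ W, ∀ y ∈ W, H x y → ψ x ≠ ψ y) →
      ∃ φ : V → Fin 5, ∀ x y, H x y → φ x ≠ φ y := by
    rintro ⟨ψ, h1, h2⟩
    refine ⟨fun x => if x ∈ W then ψ x else φ x, ?_⟩
    intro x y hxy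
    by_cases hx : x ∈ W
    · by_cases hy : y ∈ W
      · simp only [hx, hy, if_true]; exact h2 x hx y hy hxy
      · simp only [hx, hy, if_true, if_false]
        exact ((hLst x _).1 (h1 x hx) y hxy hy).symm
    · by_cases hy : y ∈ W
      · simp only [hx, hy, if_true, if_false]
        exact (hLst y _).1 (h1 y hy) x (Hs _ _ hxy) hx
      · simp only [hx, hy, if_false]
        exact hφ1 x y hx hy hxy
  apply finish
  have hHα : ∀ v ∈ W, H v (α v) := fun v hv => Or.inl (dA v hv).1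
  have hHβ : ∀ v ∈ W, H v (β v) := fun v hv => Or.inr (Or.inl (dB v hv).1)
  have hαW : ∀ v ∈ W, α v ∈ W ∧ α v ≠ v := fun v hv => ⟨(hα v hv).1, (hα v hv).2.1⟩
  have hβW : ∀ v ∈ W, β v ∈ W ∧ β v ≠ v := fun v hv => ⟨(hβ v hv).1, (hβ v hv).2.1⟩
  by_cases hI : ∃ u ∈ W, ∃ p ∈ Lst u, p ∉ Lst (α u) ∨ p ∉ Lst (β u)
  · obtain ⟨u, hu, p, hp, hpn | hpn⟩ := hI
    · refine diff H Hs Hi W Lst (fun v hv => le_trans (le_of_eq (congrArg Finset.card (by ext z; simp only [mem_filter]))) (hd v hv)) u (α u) hu (hHα u hu) (hαW u hu).1 p hp hpn ?_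
      intro X hX hXn hwX
      obtain ⟨x, hx, y, hy1, hy2, hy3⟩ := leave W α β ha1 hb1 hαW hβW hmin u hu X hX hXn hwX
      refine ⟨x, hx, y, hy1, hy2, ?_⟩
      have hxW : x ∈ W := mem_of_mem_erase (hX hx)
      rcases hy3 with rfl | rfl
      · exact hHα x hxW
      · exact hHβ x hxW
    · refine diff H Hs Hi W Lst (fun v hv => le_trans (le_of_eq (congrArg Finset.card (by ext z; simp only [mem_filter]))) (hd v hv)) u (β u) hu (hHβ u hu) (hβW u hu).1 p hp hpn ?_
      intro X hX hXn hwX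
      obtain ⟨x, hx, y, hy1, hy2, hy3⟩ := leave W β α hb1 ha1 hβW hαW
        (fun X h1 h2 h3 => hmin X h1 h2 (fun x hx => ⟨(h3 x hx).2, (h3 x hx).1⟩)) u hu X hX hXn hwX
      refine ⟨x, hx, y, hy1, hy2, ?_⟩
      have hxW : x ∈ W := mem_of_mem_erase (hX hx)
      rcases hy3 with rfl | rfl
      · exact hHβ x hxW
      · exact hHα x hxW
  push Not at hI
  have hLα : ∀ v ∈ W, Lst (α v) = Lst v := by
    intro v hv
    apply Finset.Subset.antisymm
    · intro p hp
      have := (hI (α v) (hαW v hv).1 p hp).1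
      rwa [ha1] at this
    · intro p hp
      exact (hI v hv p hp).1
  have hLβ : ∀ v ∈ W, Lst (β v) = Lst v := by
    intro v hv
    apply Finset.Subset.antisymm
    · intro p hp
      have := (hI (β v) (hβW v hv).1 p hp).2
      rwa [hb1] at this
    · intro p hp
      exact (hI v hv p hp).2
  have hall : ∀ v ∈ W, Lst v = Lst u0 := by
    have : W.filter (fun v => Lst v = Lst u0) = W := by
      refine hmin (W.filter (fun v => Lst v = Lst u0)) (filter_subset _ _) ⟨u0, mem_filter.2 ⟨hu0, rfl⟩⟩ ?_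
      intro x hx
      obtain ⟨h1, h2⟩ := mem_filter.1 hx
      exact ⟨mem_filter.2 ⟨(hαW x h1).1, (hLα x h1).trans h2⟩, mem_filter.2 ⟨(hβW x h1).1, (hLβ x h1).trans h2⟩⟩
    intro v hv
    rw [← this] at hv
    exact (mem_filter.1 hv).2
  by_cases hII : ∃ v ∈ W, (W.filter (fun y => H v y)).card < (Lst v).card
  · obtain ⟨v, hv, hvs⟩ := hII
    apply greedy H Hs Hi W Lst (fun v hv => le_trans (le_of_eq (congrArg Finset.card (by ext z; simp only [mem_filter]))) (hd v hv))
    intro X hX hXn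
    by_cases hvX : v ∈ X
    · exact ⟨v, hvX, Or.inl (lt_of_le_of_lt (le_of_eq (congrArg Finset.card (by ext z; simp only [mem_filter]))) hvs)⟩
    · by_contra hcon
      push Not at hcon
      have hXW := hmin X hX hXn (fun x hx => by
        have h1 := (hcon x hx).2
        constructor
        · by_contra h
          exact h1 (α x) (hαW x (hX hx)).1 h (hHα x (hX hx))
        · by_contra h
          exact h1 (β x) (hβW x (hX hx)).1 h (hHβ x (hX hx)))
      exact hvX (hXW ▸ hv)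
  push Not at hII
  have hWdeg : ∀ v ∈ W, (W.filter (fun y => H v y)).card = (Lst u0).card := by
    intro v hv
    have h1 := hII v hv
    have h2 := hd v hv
    rw [hall v hv] at h1 h2
    omega
  have hpair : ∀ v ∈ W, ({α v, β v} : Finset V) ⊆ W.filter (fun y => H v y) := by
    intro v hv z hz
    simp only [mem_insert, mem_singleton] at hz
    rcases hz with rfl | rfl
    · exact mem_filter.2 ⟨(hαW v hv).1, hHα v hv⟩
    · exact mem_filter.2 ⟨(hβW v hv).1, hHβ v hv⟩
  by_cases hc2 : (Lst u0).card = 2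
  · obtain ⟨p, q, hpq, hLpq⟩ := card_eq_two.1 hc2
    obtain ⟨g, hg⟩ := twocol α β ha1 hb1 W hαW hβW hmin
    have hnbW : ∀ v ∈ W, ∀ y ∈ W, H v y → y = α v ∨ y = β v := by
      intro v hv y hy hvy
      have : ({α v, β v} : Finset V) = W.filter (fun y => H v y) := by
        apply eq_of_subset_of_card_le (hpair v hv)
        rw [hWdeg v hv, hc2, card_pair (hne1 v hv)]
      have h2 : y ∈ W.filter (fun y => H v y) := mem_filter.2 ⟨hy, hvy⟩
      rw [← this] at h2
      simpa using h2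
    refine ⟨fun v => if g v then p else q, ?_, ?_⟩
    · intro v hv
      rw [hall v hv, hLpq]
      by_cases h : g v <;> simp [h]
    · intro x hx y hy hxy
      have hgy : g y ↔ ¬ g x := by
        rcases hnbW x hx y hy hxy with rfl | rfl
        · exact (hg x hx).1
        · exact (hg x hx).2
      by_cases h : g x
      · have h' : ¬ g y := fun h2 => (hgy.1 h2) h
        simp only [h, h', if_true, if_false]
        exact hpq
      · have h' : g y := hgy.2 h
        simp only [h, h', if_true, if_false]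
        exact hpq.symm
  exfalso
  have hge2 : 2 ≤ (Lst u0).card := by
    have h1 := card_le_card (hpair u0 hu0)
    rw [card_pair (hne1 u0 hu0), hWdeg u0 hu0] at h1
    exact h1
  have hout : ∀ v ∈ W, ((nb H v) \ W) = {xa v, yb v} := by
    intro v hv
    symm
    apply eq_of_subset_of_card_le
    · intro z hz
      simp only [mem_insert, mem_singleton] at hz
      rcases hz with rfl | rfl
      · exact mem_sdiff.2 ⟨mem_nb.2 (Or.inl (xa1 v hv)), xa2 v hv⟩
      · exact mem_sdiff.2 ⟨mem_nb.2 (Or.inr (Or.inl (yb1 v hv))), yb2 v hv⟩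
    · rw [card_pair (hne2 v hv)]
      have h1 := hsplit v
      have h2 := hle5 v hv
      have h3 := hWdeg v hv
      omega
  have h3 : φ x0 ∉ Lst (β u0) := by
    rw [hall _ hw0]
    intro h
    exact (hLst u0 _).1 h x0 (Or.inl (hx0e ▸ xa1 u0 hu0)) hx0W rfl
  have h4 : φ x0 ∈ ((nb H (β u0)) \ W).image φ := by
    rw [hLdef, mem_compl, not_not] at h3
    exact h3
  rw [hout _ hw0, mem_image] at h4
  obtain ⟨z, hz, hzφ⟩ := h4
  simp only [mem_insert, mem_singleton] at hz
  rcases hz with hz | hz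
  · rw [← hx1e] at hz
    rw [hz] at hzφ
    exact hφ01 hzφ.symm
  · have hyy : yb u0 = yb (β u0) := by
      rcases yb4 _ hw0 (yb u0) (yb3 u0 hu0) with h | h
      · rw [hb1] at h
        exact absurd (by rw [h]; exact hu0) (yb2 u0 hu0)
      · exact h
    have h5 : ((nb H u0) \ W).image φ ⊆ {φ x0} := by
      rw [hout u0 hu0]
      intro c hc
      rw [mem_image] at hc
      obtain ⟨t, ht, htc⟩ := hc
      simp only [mem_insert, mem_singleton] at ht
      rw [mem_singleton, ← htc]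
      rcases ht with ht | ht
      · rw [ht, hx0e]
      · rw [ht, hyy, ← hz, hzφ]
    have h6 := card_le_card h5
    rw [card_singleton] at h6
    have h7 := hLc u0
    have h8 := hsplit u0
    rw [hout u0 hu0, card_pair (hne2 u0 hu0)] at h8
    have h9 := hle5 u0 hu0
    have h10 := hWdeg u0 hu0
    omega

end Pool.H13.P3
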